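import Pool.Agent.T9h3.LN.Spec

/-!
# Project LN, piece (A2): the first cohomology of a lattice with `1 + τ + ... + τ ^ (r - 1) = 0`
-/

set_option autoImplicit false

namespace Pool.Agent.T9h8.LN

open Pool.Agent.T9h3.LN (S_Split S_Lat0)

/-- iterates as homomorphisms -/
private def itr {A : Type} [AddCommGroup A] (σ : A ≃+ A) : ℕ → A →+ A
  | 0 => AddMonoidHom.id A
  | i + 1 => σ.toAddMonoidHom.comp (itr σ i)

private lemma itr_apply {A : Type} [AddCommGroup A] (σ : A ≃+ A) (i : ℕ) (a : A) :
    itr σ i a = (σ^[i]) a := by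
  induction i with
  | zero => rfl
  | succ i ih =>
    rw [Function.iterate_succ_apply', ← ih]
    rfl

/-- the homomorphisms `- ∑_{j < i} σ ^ j c τ ^ (i - j)` -/
private def B0 {A L : Type} [AddCommGroup A] [AddCommGroup L] (σ : A ≃+ A) (τ : L ≃+ L)
    (c : L →+ A) : ℕ → L →+ A
  | 0 => 0
  | i + 1 => σ.toAddMonoidHom.comp (B0 σ τ c i) - c.comp (itr τ (i + 1))

private lemma B0_succ {A L : Type} [AddCommGroup A] [AddCommGroup L] (σ : A ≃+ A) (τ : L ≃+ L)
    (c : L →+ A) (i : ℕ) (x : L) :
    B0 σ τ c (i + 1) x = σ (B0 σ τ c i x) - c ((τ^[i + 1]) x) := by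
  rw [← itr_apply]
  rfl

private lemma B0_sum {A L : Type} [AddCommGroup A] [AddCommGroup L] (σ : A ≃+ A) (τ : L ≃+ L)
    (c : L →+ A) (i : ℕ) (x : L) :
    B0 σ τ c i x = -∑ j ∈ Finset.range i, (σ^[j]) (c ((τ^[i - j]) x)) := by
  induction i with
  | zero => simp [B0]
  | succ i ih =>
    rw [B0_succ, ih, Finset.sum_range_succ']
    simp only [Nat.add_sub_add_right, Function.iterate_zero, id_eq, Nat.sub_zero]
    rw [map_neg, map_sum]
    simp only [← Function.iterate_succ_apply' (σ : A → A)]
    abel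

theorem lat0 : S_Split → S_Lat0 := by
  intro hSplit A L _ _ _ _ r hr σ τ hσ hτ U hU c hc
  obtain ⟨s, δ, hs1, hs2, hs3⟩ := hSplit L r hr τ hτ
  have hτr : ∀ x, (τ^[r]) x = x := by
    intro x
    have h1 : ∑ i ∈ Finset.range (r + 1), (τ^[i]) x = (τ^[r]) x := by
      rw [Finset.sum_range_succ, hτ, zero_add]
    have h2 : ∑ i ∈ Finset.range (r + 1), (τ^[i]) x = x := by
      rw [Finset.sum_range_succ']
      have h3 : ∑ i ∈ Finset.range r, (τ^[i + 1]) x = 0 := by
        have h4 := hτ (τ x)
        simpa only [← Function.iterate_succ_apply] using h4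
      rw [h3, zero_add]
      rfl
    rw [← h1, h2]
  have hB0r : ∀ x, B0 σ τ c r x = 0 := by
    intro x
    rw [B0_sum, neg_eq_zero, ← hc x]
    refine Finset.sum_congr rfl fun j hj => ?_
    have hj' := Finset.mem_range.1 hj
    have h1 : (τ^[r - j]) x = (τ.symm^[j]) x := by
      have h2 : (τ^[j]) ((τ.symm^[j]) x) = x :=
        (Function.LeftInverse.iterate (g := τ) (f := τ.symm) τ.apply_symm_apply j) x
      conv_lhs => rw [← h2]
      rw [← Function.iterate_add_apply, Nat.sub_add_cancel hj'.le, hτr]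
    rw [h1]
  -- the sum of the `B0 i` is fixed
  have hfix : ∀ x, σ (∑ i ∈ Finset.range r, B0 σ τ c i x) = ∑ i ∈ Finset.range r, B0 σ τ c i x := by
    intro x
    rw [map_sum]
    have h1 : ∀ i, σ (B0 σ τ c i x) = B0 σ τ c (i + 1) x + c ((τ^[i + 1]) x) := by
      intro i
      rw [B0_succ]
      abel
    simp only [h1]
    rw [Finset.sum_add_distrib, ← map_sum]
    have h3 : ∑ i ∈ Finset.range r, (τ^[i + 1]) x = 0 := by
      have h4 := hτ (τ x)
      simpa only [← Function.iterate_succ_apply] using h4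
    rw [h3, map_zero, add_zero]
    have h5 := Finset.sum_range_succ (fun i => B0 σ τ c i x) r
    rw [Finset.sum_range_succ'] at h5
    rw [hB0r, add_zero] at h5
    have h6 : B0 σ τ c 0 x = 0 := rfl
    rw [h6, add_zero] at h5
    exact h5
  -- the homomorphisms `lam`, `u`
  let e := Module.Free.chooseBasis ℤ L
  have hch := fun k => hU _ (hfix (e k))
  choose bb uu huu heq using hch
  let lam : L →+ A := (e.constr ℤ bb).toAddMonoidHom
  let u : L →+ U := (e.constr ℤ (fun k => (⟨uu k, huu k⟩ : U))).toAddMonoidHom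
  have hlam : ∀ k, lam (e k) = bb k := fun k => e.constr_basis ℤ bb k
  have hu : ∀ k, u (e k) = ⟨uu k, huu k⟩ := fun k =>
    e.constr_basis ℤ (fun k => (⟨uu k, huu k⟩ : U)) k
  have hS : ∀ x, ∑ i ∈ Finset.range r, B0 σ τ c i x =
      ∑ i ∈ Finset.range r, (σ^[i]) (lam x) + (u x : A) := by
    have h1 : (∑ i ∈ Finset.range r, B0 σ τ c i).toIntLinearMap =
        (∑ i ∈ Finset.range r, (itr σ i).comp lam + U.subtype.comp u).toIntLinearMap := by
      refine e.ext fun k => ?_
      simp only [AddMonoidHom.coe_toIntLinearMap, AddMonoidHom.finsetSum_apply,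
        AddMonoidHom.add_apply, AddMonoidHom.comp_apply, itr_apply, hlam, hu,
        AddSubgroup.coe_subtype]
      exact heq k
    intro x
    have h2 := DFunLike.congr_fun h1 x
    simpa only [AddMonoidHom.coe_toIntLinearMap, AddMonoidHom.finsetSum_apply,
      AddMonoidHom.add_apply, AddMonoidHom.comp_apply, itr_apply, AddSubgroup.coe_subtype] using h2
  -- the corrected homomorphisms
  let B : ℕ → L →+ A := fun i => B0 σ τ c i - (itr σ i).comp lam
  have hB : ∀ i x, B i x = B0 σ τ c i x - (σ^[i]) (lam x) := by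
    intro i x
    rw [← itr_apply]
    rfl
  have hB1 : ∀ i x, σ (B i x) = B (i + 1) x + c ((τ^[i + 1]) x) := by
    intro i x
    rw [hB, hB, map_sub, B0_succ, Function.iterate_succ_apply' (σ : A → A)]
    abel
  have hBr : ∀ x, B r x = B 0 x := by
    intro x
    rw [hB, hB, hB0r, hσ]
    rfl
  have hBs : ∀ x, ∑ i ∈ Finset.range r, B i x = (u x : A) := by
    intro x
    simp only [hB]
    rw [Finset.sum_sub_distrib, hS]
    abel
  let b : L →+ A := ∑ i ∈ Finset.range r, (B i).comp (s i)
  have hb : ∀ x, b x = ∑ i ∈ Finset.range r, B i (s i x) := by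
    intro x
    simp [b, AddMonoidHom.finsetSum_apply]
  -- shift of the summation index
  have hshift : ∀ f : ℕ → A, f r = f 0 → ∑ i ∈ Finset.range r, f (i + 1) =
      ∑ i ∈ Finset.range r, f i := by
    intro f hf
    have h5 := Finset.sum_range_succ f r
    rw [Finset.sum_range_succ', hf] at h5
    exact add_right_cancel h5
  refine ⟨b, fun x => ?_⟩
  have h1 : σ (b (τ.symm x)) = b x - (u (δ (τ.symm x)) : A) + c x := by
    rw [hb, map_sum]
    simp only [hB1]
    rw [Finset.sum_add_distrib, ← map_sum]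
    have h2 : ∑ i ∈ Finset.range r, (τ^[i + 1]) (s i (τ.symm x)) = x := by
      simp only [Function.iterate_succ_apply']
      rw [← map_sum, hs3, τ.apply_symm_apply]
    rw [h2]
    congr 1
    have h3 : ∀ i, s i (τ.symm x) = s (i + 1) x - δ (τ.symm x) := by
      intro i
      have h4 := hs1 i (τ.symm x)
      rw [τ.apply_symm_apply] at h4
      rw [h4]
      abel
    simp only [h3, map_sub]
    rw [Finset.sum_sub_distrib, hshift (fun i => B i (s i x)), hshift (fun i => B i (δ (τ.symm x))),
      hBs, hb]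
    · exact hBr _
    · have h5 : s r = s 0 := by
        have h6 := hs2 0
        rwa [zero_add] at h6
      simp only [h5]
      exact hBr _
  rw [h1]
  have h7 : c x - (b x - (u (δ (τ.symm x)) : A) + c x - b x) = (u (δ (τ.symm x)) : A) := by abel
  rw [h7]
  exact (u (δ (τ.symm x))).2

end Pool.Agent.T9h8.LN
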