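import Pool.Agent.T9h3.LN.Spec2

/-!
# Project LN, piece (B2): the elements from the first cohomology of a normal subgroup
-/

set_option autoImplicit false
set_option linter.overlappingInstances false

namespace Pool.Agent.T9h8.LN

open Pool.Agent.T9h3.LN (S_Tr2)

theorem tr2 : S_Tr2 := by
  intro A L D _ _ _ _ _ _ r W _ hr S hS c hc a ha
  classical
  have : Fintype D := Fintype.ofFinite D
  have : Fintype (D ⧸ W) := Fintype.ofFinite _
  have : Fintype W := Fintype.ofFinite _
  let as : D → L →+ A := fun s => (DistribSMul.toAddMonoidHom A s).comp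
    (a.comp (DistribSMul.toAddMonoidHom L s⁻¹)) - c s
  have has : ∀ s x, as s x = s • a (s⁻¹ • x) - c s x := fun s x => rfl
  have h1 : ∀ g s x, g • as s (g⁻¹ • x) = as (g * s) x + c g x := by
    intro g s x
    rw [has, has, smul_sub, hc g s x, smul_smul g s, mul_inv_rev, mul_smul s⁻¹ g⁻¹ x]
    abel
  have h2 : ∀ s, ∀ w ∈ W, ∀ x, as (s * w) x - as s x ∈ S := by
    intro s w hw x
    have h3 := hS s _ (ha w hw (s⁻¹ • x))
    have h4 : as (s * w) x - as s x =
        -(s • (c w (s⁻¹ • x) - (w • a (w⁻¹ • s⁻¹ • x) - a (s⁻¹ • x)))) := by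
      rw [has, has, hc s w x, mul_inv_rev, mul_smul w⁻¹ s⁻¹ x, mul_smul s w, smul_sub, smul_sub]
      abel
    rw [h4]
    exact S.neg_mem h3
  have hout : ∀ (g : D) (q : D ⧸ W), (Quotient.out (g • q) : D)⁻¹ * (g * Quotient.out q) ∈ W := by
    intro g q
    have e1 : ((Quotient.out (g • q) : D) : D ⧸ W) = ((g * Quotient.out q : D) : D ⧸ W) := by
      have e2 : ((g * Quotient.out q : D) : D ⧸ W) = g • ((Quotient.out q : D) : D ⧸ W) := rfl
      rw [e2, QuotientGroup.out_eq', QuotientGroup.out_eq']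
    exact QuotientGroup.eq.1 e1
  -- the sum over the cosets
  let A1 : L →+ A := ∑ q : D ⧸ W, as (Quotient.out q)
  have hA1 : ∀ x, A1 x = ∑ q : D ⧸ W, as (Quotient.out q) x := by
    intro x
    simp [A1, AddMonoidHom.finsetSum_apply]
  have hgA1 : ∀ g x, g • A1 (g⁻¹ • x) =
      ∑ q : D ⧸ W, as (g * Quotient.out q) x + W.index • c g x := by
    intro g x
    rw [hA1, Finset.smul_sum]
    simp only [h1]
    rw [Finset.sum_add_distrib, Finset.sum_const, Finset.card_univ, Subgroup.index_eq_card,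
      Nat.card_eq_fintype_card]
  have hg1 : ∀ (g : D) (x : L), W.index • c g x - (g • A1 (g⁻¹ • x) - A1 x) ∈ S := by
    intro g x
    have h5 : A1 x = ∑ q : D ⧸ W, as (Quotient.out (g • q)) x := by
      rw [hA1]
      exact (Equiv.sum_comp (MulAction.toPerm g : Equiv.Perm (D ⧸ W))
        (fun q => as (Quotient.out q) x)).symm
    have h6 : W.index • c g x - (g • A1 (g⁻¹ • x) - A1 x) =
        -∑ q : D ⧸ W, (as (g * Quotient.out q) x - as (Quotient.out (g • q)) x) := by
      rw [hgA1, h5, Finset.sum_sub_distrib]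
      abel
    rw [h6]
    refine S.neg_mem (S.sum_mem fun q _ => ?_)
    have h8 := h2 (Quotient.out (g • q)) _ (hout g q) x
    rwa [mul_inv_cancel_left] at h8
  -- the sum over `W`
  let A2 : L →+ A := -∑ h : W, c h
  have hA2 : ∀ x, A2 x = -∑ h : W, c h x := by
    intro x
    simp [A2, AddMonoidHom.finsetSum_apply]
  have hw2 : ∀ w ∈ W, ∀ x, w • A2 (w⁻¹ • x) - A2 x = r • c w x := by
    intro w hw x
    rw [hA2, hA2, smul_neg, Finset.smul_sum]
    have h5 : ∀ h : W, w • c h (w⁻¹ • x) = c (w * h) x - c w x := by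
      intro h
      rw [hc w h x]
      abel
    simp only [h5]
    have h6 : ∑ h : W, c (w * h) x = ∑ h : W, c h x :=
      Equiv.sum_comp (Equiv.mulLeft (⟨w, hw⟩ : W)) (fun h : W => c h x)
    rw [Finset.sum_sub_distrib, h6, Finset.sum_const, Finset.card_univ, ← hr,
      Nat.card_eq_fintype_card]
    abel
  -- the difference `d`
  let d : D → L →+ A := fun g => r • c g -
    ((DistribSMul.toAddMonoidHom A g).comp (A2.comp (DistribSMul.toAddMonoidHom L g⁻¹)) - A2)
  have hd : ∀ g x, d g x = r • c g x - (g • A2 (g⁻¹ • x) - A2 x) := fun g x => rfl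
  have hdW : ∀ w ∈ W, ∀ x, d w x = 0 := by
    intro w hw x
    rw [hd, hw2 w hw, sub_self]
  have hdc : ∀ g h x, d (g * h) x = d g x + g • d h (g⁻¹ • x) := by
    intro g h x
    rw [hd, hd, hd, hc g h x, smul_sub g, smul_sub g, mul_inv_rev, mul_smul h⁻¹ g⁻¹ x,
      mul_smul g h, smul_add r, smul_comm g r]
    abel
  have hdq : ∀ g, ∀ w ∈ W, ∀ x, d (g * w) x = d g x := by
    intro g w hw x
    rw [hdc, hdW w hw, smul_zero, add_zero]
  let A3 : L →+ A := -∑ q : D ⧸ W, d (Quotient.out q)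
  have hA3 : ∀ x, A3 x = -∑ q : D ⧸ W, d (Quotient.out q) x := by
    intro x
    simp [A3, AddMonoidHom.finsetSum_apply]
  refine ⟨A1, A2, A3, hg1, fun w hw x => (hw2 w hw x).symm, fun g x => ?_⟩
  rw [← hd g x]
  have h5 : A3 x = -∑ q : D ⧸ W, d (Quotient.out (g • q)) x := by
    rw [hA3]
    congr 1
    exact (Equiv.sum_comp (MulAction.toPerm g : Equiv.Perm (D ⧸ W))
      (fun q => d (Quotient.out q) x)).symm
  have h6 : ∀ q : D ⧸ W, g • d (Quotient.out q) (g⁻¹ • x) =
      d (Quotient.out (g • q)) x - d g x := by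
    intro q
    have h8 := hdq (Quotient.out (g • q)) _ (hout g q) x
    rw [mul_inv_cancel_left, hdc] at h8
    rw [← h8]
    abel
  rw [hA3, smul_neg, Finset.smul_sum]
  simp only [h6]
  rw [h5, Finset.sum_sub_distrib, Finset.sum_const, Finset.card_univ, Subgroup.index_eq_card,
    Nat.card_eq_fintype_card]
  abel

end Pool.Agent.T9h8.LN
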