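import Pool.Agent.T9h49.LN.Inv0

/-!
# Project LN, piece (C2b): the invariants of the semilinear action after base change
-/

set_option autoImplicit false
set_option linter.overlappingInstances false

namespace Pool.Agent.T9h8.LN

theorem inv : Pool.Agent.T9h49.LN.S_Inv := by
  intro E M M' F K K' L _ _ _ _ _ _ _ _ _ _ _ _ _ _ _ _ _ _ _ ρ χ i ρ' hF h1 h2 h3 h6
  have hfin : FiniteDimensional M M' := FiniteDimensional.right E M M'
  have hgal : IsGalois M M' := IsGalois.tower_top_of_isGalois E M M'
  let _ : Algebra K K' := i.toAlgebra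
  let _ : Algebra M K' := ((algebraMap M' K').comp (algebraMap M M')).toAlgebra
  have : IsScalarTower M M' K' := IsScalarTower.of_algebraMap_eq fun x => rfl
  have : IsScalarTower M K K' := IsScalarTower.of_algebraMap_eq fun x => (h1 x).symm
  have hKi : ∀ y : K, algebraMap K K' y = i y := fun y => rfl
  -- `K'` is generated by `M'` over `K`
  have hadj : IntermediateField.adjoin K (Set.range (algebraMap M' K')) = ⊤ := by
    rw [eq_top_iff]
    intro y' _
    have hM' : ∀ x, algebraMap M' K' x ∈
        (IntermediateField.adjoin K (Set.range (algebraMap M' K'))).toSubfield := fun x =>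
      IntermediateField.subset_adjoin K _ ⟨x, rfl⟩
    have hle : IntermediateField.adjoin M' (Set.range fun x => i (χ x)) ≤
        (IntermediateField.adjoin K (Set.range (algebraMap M' K'))).toSubfield.toIntermediateField
          hM' := by
      rw [IntermediateField.adjoin_le_iff]
      rintro _ ⟨x, rfl⟩
      exact (IntermediateField.adjoin K (Set.range (algebraMap M' K'))).algebraMap_mem (χ x)
    rw [h6] at hle
    exact hle (IntermediateField.mem_top (x := y'))
  have halg : ∀ x ∈ Set.range (algebraMap M' K'), IsAlgebraic K x := by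
    rintro _ ⟨x, rfl⟩
    have e1 : IsIntegral M x := Algebra.IsIntegral.isIntegral x
    have e2 : IsIntegral M (algebraMap M' K' x) := e1.algebraMap
    exact (e2.tower_top (A := K)).isAlgebraic
  have hspan : Submodule.span K (Set.range (algebraMap M' K')) = ⊤ := by
    have e1 := IntermediateField.adjoin_toSubalgebra_of_isAlgebraic halg
    rw [hadj, IntermediateField.top_toSubalgebra] at e1
    have e2 := Algebra.adjoin_eq_span K (Set.range (algebraMap M' K'))
    have e3 : (Submonoid.closure (Set.range (algebraMap M' K')) : Set K') =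
        Set.range (algebraMap M' K') := by
      have e4 : Set.range (algebraMap M' K') =
          (MonoidHom.mrange (algebraMap M' K' : M' →* K') : Set K') := by
        ext y; simp
      rw [e4, Submonoid.closure_eq]
    rw [e3, ← e1, Algebra.top_toSubmodule] at e2
    exact e2.symm
  -- the sum over the automorphisms of `M'` over `M`
  have hres : ∀ σ : M' ≃ₐ[M] M', AlgEquiv.restrictNormalHom M (σ.restrictScalars E) = 1 := by
    intro σ
    ext x
    apply (algebraMap M M').injective
    have e1 := AlgEquiv.restrictNormal_commutes (σ.restrictScalars E) M x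
    exact e1.trans (σ.commutes x)
  have htr : ∀ y' : K', ∃ y : K, ∑ σ : M' ≃ₐ[M] M', ρ' (σ.restrictScalars E) y' = i y := by
    intro y'
    have hy : y' ∈ Submodule.span K (Set.range (algebraMap M' K')) := by rw [hspan]; trivial
    induction hy using Submodule.span_induction with
    | mem x hx =>
      obtain ⟨m, rfl⟩ := hx
      refine ⟨algebraMap M K (Algebra.trace M M' m), ?_⟩
      rw [h1, trace_eq_sum_automorphisms, map_sum]
      exact Finset.sum_congr rfl fun σ _ => h2 _ _
    | zero => exact ⟨0, by simp⟩
    | add x y _ _ hx hy =>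
      obtain ⟨a, ha⟩ := hx
      obtain ⟨b, hb⟩ := hy
      refine ⟨a + b, ?_⟩
      simp only [map_add, Finset.sum_add_distrib, ha, hb]
    | smul a x _ hx =>
      obtain ⟨b, hb⟩ := hx
      refine ⟨a * b, ?_⟩
      have e1 : ∀ σ : M' ≃ₐ[M] M', ρ' (σ.restrictScalars E) (a • x) =
          i a * ρ' (σ.restrictScalars E) x := by
        intro σ
        rw [Algebra.smul_def, map_mul, hKi, h3, hres, map_one]
        rfl
      simp only [e1]
      rw [← Finset.mul_sum, hb, map_mul]
  intro y' hy'
  obtain ⟨m, hm⟩ := Algebra.trace_surjective M M' 1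
  obtain ⟨y, hy⟩ := htr (algebraMap M' K' m * y')
  have e1 : ∑ σ : M' ≃ₐ[M] M', ρ' (σ.restrictScalars E) (algebraMap M' K' m * y') = y' := by
    simp only [map_mul, h2, hy']
    rw [← Finset.sum_mul, ← map_sum]
    have e2 := trace_eq_sum_automorphisms (K := M) m
    rw [hm, map_one] at e2
    have e3 : ∑ σ : M' ≃ₐ[M] M', (σ.restrictScalars E) m = ∑ σ : M' ≃ₐ[M] M', σ m := rfl
    rw [e3, ← e2, map_one, one_mul]
  rw [e1] at hy
  subst hy
  obtain ⟨z, hz⟩ := hF y fun g => by
    obtain ⟨g', rfl⟩ := AlgEquiv.restrictNormalHom_surjective (F := E) (K₁ := M) M' g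
    apply i.injective
    rw [← h3, hy']
  exact ⟨z, by rw [hz]⟩

end Pool.Agent.T9h8.LN
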