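import Pool.Agent.T9h3.LN.Spec

/-!
# Project LN, piece (B): from a normal subgroup of order prime to its index to the group
-/

set_option autoImplicit false

namespace Pool.Agent.T9h8.LN

open Pool.Agent.T9h3.LN (S_Tr)

theorem tr : S_Tr := by
  intro A L D _ _ _ _ _ _ r W _ hr hco U S hU hS c hc hcU a ha hSU
  classical
  have : Fintype D := Fintype.ofFinite D
  have : Fintype (D ⧸ W) := Fintype.ofFinite _
  have : Fintype W := Fintype.ofFinite _
  let as : D → L →+ A := fun s => (DistribSMul.toAddMonoidHom A s).comp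
    (a.comp (DistribSMul.toAddMonoidHom L s⁻¹)) - c s
  have has : ∀ s x, as s x = s • a (s⁻¹ • x) - c s x := fun s x => rfl
  have h1 : ∀ g s x, g • as s (g⁻¹ • x) = as (g * s) x + c g x := by
    intro g s x
    rw [has, has, smul_sub, hc g s x, smul_smul g s, mul_inv_rev, mul_smul s⁻¹ g⁻¹ x]
    abel
  have h2 : ∀ s, ∀ w ∈ W, ∀ x, as (s * w) x - as s x ∈ S := by
    intro s w hw x
    have h3 := hS s _ (ha w hw (s⁻¹ • x))
    have h4 : as (s * w) x - as s x =
        -(s • (c w (s⁻¹ • x) - (w • a (w⁻¹ • s⁻¹ • x) - a (s⁻¹ • x)))) := by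
      rw [has, has, hc s w x, mul_inv_rev, mul_smul w⁻¹ s⁻¹ x, mul_smul s w, smul_sub, smul_sub]
      abel
    rw [h4]
    exact S.neg_mem h3
  -- the sum over the cosets
  let A1 : L →+ A := ∑ q : D ⧸ W, as (Quotient.out q)
  have hA1 : ∀ x, A1 x = ∑ q : D ⧸ W, as (Quotient.out q) x := by
    intro x
    simp [A1, AddMonoidHom.finsetSum_apply]
  have hgA1 : ∀ g x, g • A1 (g⁻¹ • x) =
      ∑ q : D ⧸ W, as (g * Quotient.out q) x + W.index • c g x := by
    intro g x
    rw [hA1, Finset.smul_sum]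
    simp only [h1]
    rw [Finset.sum_add_distrib, Finset.sum_const, Finset.card_univ, Subgroup.index_eq_card,
      Nat.card_eq_fintype_card]
  have hw1 : ∀ w ∈ W, ∀ x, w • A1 (w⁻¹ • x) - A1 x - W.index • c w x ∈ S := by
    intro w hw x
    have h5 : w • A1 (w⁻¹ • x) - A1 x - W.index • c w x =
        ∑ q : D ⧸ W, (as (w * Quotient.out q) x - as (Quotient.out q) x) := by
      rw [hgA1, hA1, Finset.sum_sub_distrib]
      abel
    rw [h5]
    refine S.sum_mem fun q _ => ?_
    have h6 : w * Quotient.out q = Quotient.out q * ((Quotient.out q : D)⁻¹ * w * Quotient.out q) := by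
      group
    rw [h6]
    refine h2 _ _ ?_ x
    have h7 := Subgroup.Normal.conj_mem (inferInstance : W.Normal) w hw (Quotient.out q : D)⁻¹
    simpa using h7
  have hg1 : ∀ (g : D) (x : L), g • A1 (g⁻¹ • x) - A1 x ∈ U := by
    intro g x
    have h5 : A1 x = ∑ q : D ⧸ W, as (Quotient.out (g • q)) x := by
      rw [hA1]
      exact (Equiv.sum_comp (MulAction.toPerm g : Equiv.Perm (D ⧸ W))
        (fun q => as (Quotient.out q) x)).symm
    have h6 : g • A1 (g⁻¹ • x) - A1 x =
        ∑ q : D ⧸ W, (as (g * Quotient.out q) x - as (Quotient.out (g • q)) x) +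
          W.index • c g x := by
      rw [hgA1, h5, Finset.sum_sub_distrib]
      abel
    rw [h6]
    refine U.add_mem (U.sum_mem fun q _ => hSU ?_) (U.nsmul_mem (hcU g x) _)
    have h7 : (Quotient.out (g • q) : D)⁻¹ * (g * Quotient.out q) ∈ W := by
      have e1 : ((Quotient.out (g • q) : D) : D ⧸ W) = ((g * Quotient.out q : D) : D ⧸ W) := by
        have e2 : ((g * Quotient.out q : D) : D ⧸ W) = g • ((Quotient.out q : D) : D ⧸ W) := rfl
        rw [e2, QuotientGroup.out_eq', QuotientGroup.out_eq']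
      exact QuotientGroup.eq.1 e1
    have h8 := h2 (Quotient.out (g • q)) _ h7 x
    rwa [mul_inv_cancel_left] at h8
  -- the sum over `W`
  let A2 : L →+ A := -∑ h : W, c h
  have hA2 : ∀ x, A2 x = -∑ h : W, c h x := by
    intro x
    simp [A2, AddMonoidHom.finsetSum_apply]
  have hA2U : ∀ x, A2 x ∈ U := by
    intro x
    rw [hA2]
    exact U.neg_mem (U.sum_mem fun h _ => hcU _ _)
  have hw2 : ∀ w ∈ W, ∀ x, w • A2 (w⁻¹ • x) - A2 x = r • c w x := by
    intro w hw x
    rw [hA2, hA2, smul_neg, Finset.smul_sum]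
    have h5 : ∀ h : W, w • c h (w⁻¹ • x) = c (w * h) x - c w x := by
      intro h
      rw [hc w h x]
      abel
    simp only [h5]
    have h6 : ∑ h : W, c (w * h) x = ∑ h : W, c h x :=
      Equiv.sum_comp (Equiv.mulLeft (⟨w, hw⟩ : W)) (fun h : W => c h x)
    rw [Finset.sum_sub_distrib, h6, Finset.sum_const, Finset.card_univ, ← hr,
      Nat.card_eq_fintype_card]
    abel
  obtain ⟨α, β, hαβ⟩ := (Nat.isCoprime_iff_coprime.2 hco : IsCoprime (W.index : ℤ) (r : ℤ))
  have hsm : ∀ (g : D) (x : L), g • (α • A1 + β • A2) (g⁻¹ • x) - (α • A1 + β • A2) x =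
      α • (g • A1 (g⁻¹ • x) - A1 x) + β • (g • A2 (g⁻¹ • x) - A2 x) := by
    intro g x
    simp only [AddMonoidHom.add_apply, AddMonoidHom.zsmul_apply, smul_add, smul_sub]
    rw [smul_comm g α, smul_comm g β]
    abel
  refine ⟨α • A1 + β • A2, fun g x => ?_, fun w hw x => ?_⟩
  · rw [hsm]
    refine U.sub_mem (hcU g x) (U.add_mem (U.zsmul_mem (hg1 g x) _) (U.zsmul_mem ?_ _))
    exact U.sub_mem (hU g _ (hA2U _)) (hA2U _)
  · rw [hsm, hw2 w hw x]
    have h5 : c w x - (α • (w • A1 (w⁻¹ • x) - A1 x) + β • r • c w x) =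
        -(α • (w • A1 (w⁻¹ • x) - A1 x - W.index • c w x)) := by
      have h6 : c w x = (α * (W.index : ℤ)) • c w x + (β * (r : ℤ)) • c w x := by
        rw [← add_smul, hαβ, one_smul]
      rw [mul_smul, mul_smul, natCast_zsmul, natCast_zsmul] at h6
      rw [smul_sub α (w • A1 (w⁻¹ • x) - A1 x)]
      nth_rewrite 1 [h6]
      abel
    rw [h5]
    exact S.neg_mem (S.zsmul_mem (hw1 w hw x) _)

end Pool.Agent.T9h8.LN
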